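import Mathlib

set_option autoImplicit false

namespace Pool.Agent.h232_rp

open Finset

/-- the shift of the block coordinates -/
noncomputable def gs {α : Type} {M k q : ℕ} (f : Fin M × Fin k ↪ α) (s : Fin M → ZMod q) (x : α) :
    ZMod q := by
  classical
  exact if h : ∃ p, f p = x then s (Classical.choose h).1 else 0

theorem gs_f {α : Type} {M k q : ℕ} (f : Fin M × Fin k ↪ α) (s : Fin M → ZMod q)
    (p : Fin M × Fin k) : gs f s (f p) = s p.1 := by
  unfold gs
  have h : ∃ p', f p' = f p := ⟨p, rfl⟩
  rw [dif_pos h]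
  have := f.injective (Classical.choose_spec h)
  rw [this]

theorem gs_out {α : Type} {M k q : ℕ} (f : Fin M × Fin k ↪ α) (s : Fin M → ZMod q) (x : α)
    (hx : x ∉ Set.range f) : gs f s x = 0 := by
  unfold gs
  rw [dif_neg]
  rintro ⟨p, hp⟩
  exact hx ⟨p, hp⟩

theorem gs_neg {α : Type} {M k q : ℕ} (f : Fin M × Fin k ↪ α) (s : Fin M → ZMod q) (x : α) :
    gs f (-s) x + gs f s x = 0 := by
  unfold gs
  split_ifs with h
  · simp
  · simp

noncomputable def act {α T : Type} {M k q : ℕ} (φ : T ≃ ZMod q) (f : Fin M × Fin k ↪ α)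
    (s : Fin M → ZMod q) (e : α → T) : α → T :=
  fun x => φ.symm (φ (e x) + gs f s x)

theorem act_neg {α T : Type} {M k q : ℕ} (φ : T ≃ ZMod q) (f : Fin M × Fin k ↪ α)
    (s : Fin M → ZMod q) (e : α → T) : act φ f s (act φ f (-s) e) = e := by
  funext x
  unfold act
  rw [Equiv.apply_symm_apply, add_assoc, gs_neg, add_zero, Equiv.symm_apply_apply]

/-- double counting over the orbits of the block shifts -/
theorem orbit {α T : Type} [Fintype α] [DecidableEq α] [Fintype T] [DecidableEq T]
    (hT : 0 < Fintype.card T) (M k n : ℕ) (f : Fin M × Fin k ↪ α) (Bad : Finset (α → T))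
    (h : ∀ e : α → T, ∃ (l : Fin M → T) (Bd : Fin M → Finset T), (∀ i, (Bd i).card ≤ n) ∧
      ∀ e' ∈ Bad, (∀ x, x ∉ Set.range f → e' x = e x) → ∀ l' : Fin M → T,
        (∀ i j, e (f (i, j)) = l i → e' (f (i, j)) = l' i) → ∀ i, l' i ∈ Bd i) :
    Bad.card * Fintype.card T ^ M ≤ n ^ M * Fintype.card T ^ Fintype.card α := by
  classical
  obtain ⟨q, hq⟩ : ∃ q, q = Fintype.card T := ⟨_, rfl⟩
  haveI : NeZero q := ⟨by omega⟩
  have φ : T ≃ ZMod q := Fintype.equivOfCardEq (by rw [ZMod.card, hq])
  have e1 : Bad.card * q ^ M ≤ ∑ s : Fin M → ZMod q, (univ.filter fun e => act φ f s e ∈ Bad).card := by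
    have : (univ : Finset (Fin M → ZMod q)).card = q ^ M := by
      rw [card_univ, Fintype.card_fun, ZMod.card, Fintype.card_fin]
    rw [mul_comm, ← this, ← smul_eq_mul, ← Finset.sum_const]
    refine Finset.sum_le_sum fun s _ => ?_
    refine Finset.card_le_card_of_injOn (act φ f (-s)) ?_ ?_
    · intro e he
      rw [mem_coe, mem_filter]
      exact ⟨mem_univ _, by rw [act_neg]; exact he⟩
    · intro a _ b _ hab
      have := congrArg (act φ f s) hab
      rwa [act_neg, act_neg] at this
  have e2 : ∑ s : Fin M → ZMod q, (univ.filter fun e => act φ f s e ∈ Bad).card =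
      ∑ e : α → T, (univ.filter fun s => act φ f s e ∈ Bad).card := by
    simp only [card_filter]
    rw [Finset.sum_comm]
  have e3 : ∀ e : α → T, (univ.filter fun s => act φ f s e ∈ Bad).card ≤ n ^ M := by
    intro e
    obtain ⟨l, Bd, hBd, hh⟩ := h e
    have hsub : (univ.filter fun s => act φ f s e ∈ Bad) ⊆
        Fintype.piFinset fun i => univ.filter fun g : ZMod q => φ.symm (φ (l i) + g) ∈ Bd i := by
      intro s hs
      rw [mem_filter] at hs
      rw [Fintype.mem_piFinset]
      intro i
      rw [mem_filter]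
      refine ⟨mem_univ _, hh _ hs.2 ?_ (fun i => φ.symm (φ (l i) + s i)) ?_ i⟩
      · intro x hx
        unfold act
        rw [gs_out f s x hx, add_zero, Equiv.symm_apply_apply]
      · intro i j hij
        unfold act
        rw [gs_f, hij]
    refine (card_le_card hsub).trans ?_
    rw [Fintype.card_piFinset]
    calc _ ≤ ∏ _i : Fin M, n := by
          refine Finset.prod_le_prod (fun _ _ => Nat.zero_le _) fun i _ => ?_
          refine le_trans ?_ (hBd i)
          refine Finset.card_le_card_of_injOn (fun g => φ.symm (φ (l i) + g)) ?_ ?_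
          · intro g hg
            rw [mem_coe, mem_filter] at hg
            exact hg.2
          · intro a _ b _ hab
            have := φ.symm.injective hab
            exact add_left_cancel this
      _ = n ^ M := by simp
  have e4 : ∑ e : α → T, (univ.filter fun s => act φ f s e ∈ Bad).card ≤ n ^ M * q ^ Fintype.card α := by
    calc _ ≤ ∑ _e : α → T, n ^ M := Finset.sum_le_sum fun e _ => e3 e
      _ = n ^ M * q ^ Fintype.card α := by
        rw [Finset.sum_const, card_univ, Fintype.card_fun, smul_eq_mul, ← hq, mul_comm]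
  rw [← hq]
  exact e1.trans (e2 ▸ e4)

end Pool.Agent.h232_rp
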