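import Pool.Agent.R849.SV.Arb
import Pool.Agent.h232_rp.Orbit

set_option autoImplicit false

namespace Pool.Agent.h232_rp

open Finset

/-- the number of products of the elements of `A` and of `p (S + t)` -/
noncomputable def np (p : Polynomial ℤ) (A : Finset ℂ) (S : Finset ℤ) (t : ℤ) : ℕ :=
  ((A ×ˢ S).image fun s => s.1 * ((p.eval (s.2 + t) : ℤ) : ℂ)).card

theorem bs (ε : ℝ) (hε : 0 < ε) (hε1 : ε ≤ 1) (d : ℕ) :
    ∃ n : ℕ, ∀ w : ℕ, ∃ C : ℝ, ∀ p : Polynomial ℤ, 1 ≤ p.natDegree → p.natDegree ≤ d →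
      ∀ (S : Finset ℤ) (A : Finset ℂ), S.Nonempty → A.Nonempty →
      (0 : ℂ) ∉ A → C ≤ (A.card : ℝ) * S.card →
      ∀ T : Finset ℤ, (∀ x ∈ T, ∀ y ∈ T, |x - y| ≤ w) →
      (T.filter fun t => (np p A S t : ℝ) < ((A.card : ℝ) * S.card) ^ (1 - ε)).card ≤ n := by
  obtain ⟨n, h⟩ := Pool.Agent.R849.SV.badShifts ε hε hε1 d
  refine ⟨n, fun w => ?_⟩
  obtain ⟨C, h⟩ := h w
  refine ⟨C, fun p hp1 hpd S A hS hA hA0 hC T hT => ?_⟩
  by_contra hlt
  push Not at hlt
  obtain ⟨t, ht, h3⟩ := h p hp1 hpd S A hS hA hA0 hC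
    (T.filter fun t => (np p A S t : ℝ) < ((A.card : ℝ) * S.card) ^ (1 - ε)) hlt.le
    (fun x hx y hy => hT x (mem_of_mem_filter x hx) y (mem_of_mem_filter y hy))
  rw [mem_filter] at ht
  have h4 := ht.2
  unfold np at h4
  exact absurd h3 (not_le.2 (by convert h4))

end Pool.Agent.h232_rp

namespace Pool.Agent.h232_rp

open Finset

/-- the perturbed set `{x + e x : x ∈ X}` -/
noncomputable def pert (X T : Finset ℤ) (e : X → T) : Finset ℤ :=
  univ.image fun x : X => (x : ℤ) + (e x : ℤ)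

theorem general (p : Polynomial ℤ) (ε : ℝ) (hε1 : ε ≤ 1) (n w : ℕ) (C : ℝ)
    (hbs : ∀ (S : Finset ℤ) (A : Finset ℂ), S.Nonempty → A.Nonempty →
      (0 : ℂ) ∉ A → C ≤ (A.card : ℝ) * S.card →
      ∀ T : Finset ℤ, (∀ x ∈ T, ∀ y ∈ T, |x - y| ≤ w) →
      (T.filter fun t => (np p A S t : ℝ) < ((A.card : ℝ) * S.card) ^ (1 - ε)).card ≤ n)
    (X T : Finset ℤ) (hT : T.Nonempty) (hTw : ∀ x ∈ T, ∀ y ∈ T, |x - y| ≤ (w : ℤ))
    (M k : ℕ) (hk : 1 ≤ k) (f : Fin M × Fin k ↪ X) (A : (X → T) → Finset ℂ)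
    (hA : ∀ e e' : X → T, (∀ x, x ∉ Set.range f → e' x = e x) → A e' = A e)
    (hne : ∀ e, (A e).Nonempty) (h0 : ∀ e, (0 : ℂ) ∉ A e) (a : ℝ) (ha0 : 0 ≤ a)
    (ha : ∀ e, a ≤ (A e).card) (hC : C ≤ a * ((k : ℝ) / T.card)) (P : (X → T) → ℕ)
    (hP : ∀ e, ∀ S : Finset ℤ, S ⊆ pert X T e →
      ((A e ×ˢ S).image fun s => s.1 * ((p.eval s.2 : ℤ) : ℂ)).card ≤ P e)
    (Bad : Finset (X → T))
    (hBad : ∀ e ∈ Bad, (P e : ℝ) < (a * ((k : ℝ) / T.card)) ^ (1 - ε)) :
    Bad.card * T.card ^ M ≤ n ^ M * T.card ^ X.card := by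
  classical
  have hTc : Fintype.card T = T.card := Fintype.card_coe T
  have hXc : Fintype.card X = X.card := Fintype.card_coe X
  have hTpos : (0 : ℝ) < T.card := by exact_mod_cast hT.card_pos
  have hkpos : (0 : ℝ) < k := by exact_mod_cast hk
  have hkq : (0 : ℝ) < (k : ℝ) / T.card := by positivity
  rw [← hTc, ← hXc]
  refine orbit (by rw [hTc]; exact hT.card_pos) M k n f Bad fun e => ?_
  have hpig : ∀ i : Fin M, ∃ t : T,
      ((k : ℝ) / T.card) ≤ (univ.filter fun j : Fin k => e (f (i, j)) = t).card := by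
    intro i
    obtain ⟨t, _, ht⟩ := Finset.exists_le_card_fiber_of_nsmul_le_card_of_maps_to
      (s := (univ : Finset (Fin k))) (t := (univ : Finset T)) (f := fun j => e (f (i, j)))
      (b := ((k : ℝ) / T.card)) (fun _ _ => mem_univ _)
      ⟨⟨hT.choose, hT.choose_spec⟩, mem_univ _⟩
      (by
        rw [card_univ, card_univ, hTc, Fintype.card_fin, nsmul_eq_mul]
        exact (mul_div_cancel₀ _ hTpos.ne').le)
    exact ⟨t, ht⟩
  choose l hl using hpig
  let S : Fin M → Finset ℤ := fun i =>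
    (univ.filter fun j : Fin k => e (f (i, j)) = l i).image fun j => ((f (i, j) : X) : ℤ)
  have hScard : ∀ i, (S i).card = (univ.filter fun j : Fin k => e (f (i, j)) = l i).card := by
    intro i
    refine card_image_of_injOn ?_
    intro j _ j' _ hjj
    have := f.injective (Subtype.ext hjj)
    exact (Prod.ext_iff.1 this).2
  have hSr : ∀ i, ((k : ℝ) / T.card) ≤ (S i).card := fun i => by rw [hScard]; exact hl i
  have hSne : ∀ i, (S i).Nonempty := fun i =>
    card_pos.1 (by exact_mod_cast hkq.trans_le (hSr i))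
  refine ⟨l, fun i => univ.filter fun t : T =>
    (np p (A e) (S i) t : ℝ) < (((A e).card : ℝ) * (S i).card) ^ (1 - ε), ?_, ?_⟩
  · intro i
    refine le_trans ?_ (hbs (S i) (A e) (hSne i) (hne e) (h0 e) ?_ T hTw)
    · refine Finset.card_le_card_of_injOn (fun t : T => (t : ℤ)) ?_
        (fun a _ b _ h => Subtype.ext h)
      intro t ht
      rw [mem_coe, mem_filter] at ht ⊢
      exact ⟨t.2, ht.2⟩
    · exact hC.trans (mul_le_mul (ha e) (hSr i) hkq.le (by positivity))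
  · intro e' he' hout l' hl' i
    rw [mem_filter]
    refine ⟨mem_univ _, ?_⟩
    have h1 := hBad e' he'
    have h2 : np p (A e) (S i) (l' i) ≤ P e' := by
      rw [← hA e e' hout]
      refine le_trans ?_ (hP e' ((S i).image fun x => x + (l' i : ℤ)) ?_)
      · unfold np
        refine card_le_card ?_
        intro z hz
        obtain ⟨s, hs, rfl⟩ := mem_image.1 hz
        rw [mem_product] at hs
        exact mem_image.2 ⟨(s.1, s.2 + (l' i : ℤ)),
          mem_product.2 ⟨hs.1, mem_image_of_mem _ hs.2⟩, rfl⟩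
      · intro z hz
        obtain ⟨y, hy, rfl⟩ := mem_image.1 hz
        obtain ⟨j, hj, rfl⟩ := mem_image.1 hy
        rw [mem_filter] at hj
        unfold pert
        refine mem_image.2 ⟨f (i, j), mem_univ _, ?_⟩
        rw [hl' i j hj.2]
    calc (np p (A e) (S i) (l' i) : ℝ) ≤ P e' := by exact_mod_cast h2
      _ < (a * ((k : ℝ) / T.card)) ^ (1 - ε) := h1
      _ ≤ _ := Real.rpow_le_rpow (by positivity)
          (mul_le_mul (ha e) (hSr i) hkq.le (by positivity)) (by linarith)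

/-- from `(2 n) ^ M` to `2 ^ M` -/
theorem half (b q n M N : ℕ) (hn : 1 ≤ n) (hq : 2 * n ≤ q) (h : b * q ^ M ≤ n ^ M * q ^ N) :
    b * 2 ^ M ≤ q ^ N := by
  have h1 : b * 2 ^ M * n ^ M ≤ q ^ N * n ^ M := by
    calc b * 2 ^ M * n ^ M = b * (2 * n) ^ M := by rw [mul_pow]; ring
      _ ≤ b * q ^ M := Nat.mul_le_mul_left _ (Nat.pow_le_pow_left hq M)
      _ ≤ n ^ M * q ^ N := h
      _ = _ := mul_comm _ _
  exact Nat.le_of_mul_le_mul_right h1 (by positivity)

theorem card_le_of_diam (T : Finset ℤ) (w : ℕ) (hTw : ∀ x ∈ T, ∀ y ∈ T, |x - y| ≤ (w : ℤ)) :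
    T.card ≤ w + 1 := by
  rcases T.eq_empty_or_nonempty with rfl | hT
  · simp
  · obtain ⟨a, ha, hmin⟩ := exists_min_image T id hT
    have : T ⊆ Icc a (a + w) := by
      intro x hx
      rw [mem_Icc]
      have h1 := hTw x hx a ha
      have h2 := hmin x hx
      simp only [id] at h2
      rw [abs_le] at h1
      constructor <;> linarith [h1.2]
    refine (card_le_card this).trans ?_
    rw [Int.card_Icc]
    omega

end Pool.Agent.h232_rp
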