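import Pool.Agent.h232_rp.Analytic

set_option autoImplicit false

namespace Pool.Agent.h232_rp

open Finset

theorem rp_le_self {x ε : ℝ} (hx : 1 ≤ x) (hε : 0 ≤ ε) : x ^ (1 - ε) ≤ x := by
  calc x ^ (1 - ε) ≤ x ^ (1 : ℝ) := Real.rpow_le_rpow_of_exponent_le hx (by linarith)
    _ = x := Real.rpow_one x

/-- `c x ^ (1 - ε) ≤ (x / K) ^ (1 - ε)` if `c ≤ 1 / K`, `K ≥ 1` -/
theorem rp_scale {x K c ε : ℝ} (hx : 0 ≤ x) (hK : 1 ≤ K) (hc : c ≤ 1 / K) (hε : 0 ≤ ε)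
    (hε1 : ε ≤ 1) : c * x ^ (1 - ε) ≤ (x / K) ^ (1 - ε) := by
  have hK0 : 0 < K := by linarith
  rw [Real.div_rpow hx hK0.le, div_eq_mul_one_div, mul_comm]
  refine mul_le_mul_of_nonneg_left (hc.trans ?_) (Real.rpow_nonneg hx _)
  exact one_div_le_one_div_of_le (Real.rpow_pos_of_pos hK0 _) (rp_le_self hK hε)

theorem thmA (ε : ℝ) (hε : 0 < ε) (hε1 : ε ≤ 1) (d : ℕ) : ∃ n : ℕ, ∀ w : ℕ, ∃ c : ℝ, 0 < c ∧
    ∀ p : Polynomial ℤ, 1 ≤ p.natDegree → p.natDegree ≤ d → ∀ T : Finset ℤ, n ≤ T.card → (∀ x ∈ T, ∀ y ∈ T, |x - y| ≤ (w : ℤ)) →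
    ∀ A : Finset ℂ, A.Nonempty → (0 : ℂ) ∉ A → ∀ (X : Finset ℤ) (M : ℕ), 1 ≤ M → M ≤ X.card →
    (univ.filter fun e : X → T =>
      (((A ×ˢ pert X T e).image fun s => s.1 * ((p.eval s.2 : ℤ) : ℂ)).card : ℝ) <
        c * ((A.card : ℝ) * X.card / M) ^ (1 - ε)).card * 2 ^ M ≤ T.card ^ X.card := by
  classical
  obtain ⟨n, h⟩ := bs ε hε hε1 d
  refine ⟨2 * (n + 1), fun w => ?_⟩
  obtain ⟨C, h⟩ := h w
  have hw : (0 : ℝ) < 2 * (w + 1) := by positivity
  have hK1 : (1 : ℝ) ≤ 2 * (w + 1) := by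
    have : (0 : ℝ) ≤ w := Nat.cast_nonneg w
    linarith
  have hC1 : (1 : ℝ) ≤ max C 1 := le_max_right _ _
  refine ⟨1 / (2 * (w + 1) * max C 1), by positivity, ?_⟩
  intro p hp1 hpd T hTn hTw A hAne hA0 X M hM hMX
  obtain ⟨c, hc⟩ : ∃ c : ℝ, c = 1 / (2 * (w + 1) * max C 1) := ⟨_, rfl⟩
  rw [← hc]
  have hc0 : 0 < c := by rw [hc]; positivity
  have hcK : c ≤ 1 / (2 * (w + 1)) := by
    rw [hc]
    refine one_div_le_one_div_of_le hw ?_
    nlinarith
  have hcC : max C 1 ≤ 1 / c / (2 * (w + 1)) := by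
    rw [hc, one_div_one_div, mul_div_cancel_left₀ _ hw.ne']
  have hT : T.Nonempty := card_pos.1 (by omega)
  have hTpos : (0 : ℝ) < T.card := by exact_mod_cast hT.card_pos
  have hTw1 : (T.card : ℝ) ≤ w + 1 := by exact_mod_cast card_le_of_diam T w hTw
  refine half _ _ (n + 1) _ _ (by omega) hTn ?_
  obtain ⟨Bad, hBad⟩ : ∃ Bad, Bad = univ.filter fun e : X → T =>
      (((A ×ˢ pert X T e).image fun s => s.1 * ((p.eval s.2 : ℤ) : ℂ)).card : ℝ) <
        c * ((A.card : ℝ) * X.card / M) ^ (1 - ε) := ⟨_, rfl⟩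
  rw [← hBad]
  rcases Bad.eq_empty_or_nonempty with hE | ⟨e0, he0⟩
  · rw [hE]; simp
  obtain ⟨x, hx⟩ : ∃ x : ℝ, x = (A.card : ℝ) * X.card / M := ⟨_, rfl⟩
  rw [← hx] at hBad
  have hXne : X.Nonempty := card_pos.1 (by omega)
  have hMpos : (0 : ℝ) < M := by exact_mod_cast hM
  have hA1 : (1 : ℝ) ≤ A.card := by exact_mod_cast hAne.card_pos
  have hx1 : 1 ≤ x := by
    rw [hx, le_div_iff₀ hMpos, one_mul]
    have : (M : ℝ) ≤ X.card := by exact_mod_cast hMX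
    nlinarith
  have hprod : ∀ e : X → T, (1 : ℝ) ≤ ((A ×ˢ pert X T e).image fun s => s.1 * ((p.eval s.2 : ℤ) : ℂ)).card := by
    intro e
    have : ((A ×ˢ pert X T e).image fun s => s.1 * ((p.eval s.2 : ℤ) : ℂ)).Nonempty := by
      refine (hAne.product ?_).image _
      unfold pert
      obtain ⟨y, hy⟩ := hXne
      exact ⟨_, mem_image.2 ⟨⟨y, hy⟩, mem_univ _, rfl⟩⟩
    exact_mod_cast this.card_pos
  have hxc : 1 / c ≤ x := by
    rw [hBad, mem_filter] at he0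
    have h1 := (hprod e0).trans_lt he0.2
    have h2 : c * x ^ (1 - ε) ≤ c * x := mul_le_mul_of_nonneg_left (rp_le_self hx1 hε.le) hc0.le
    rw [div_le_iff₀ hc0]
    linarith
  -- block length
  obtain ⟨k, hk⟩ : ∃ k, k = X.card / M := ⟨_, rfl⟩
  have hk1 : 1 ≤ k := by rw [hk]; exact (Nat.one_le_div_iff (by omega)).2 hMX
  have hMk : M * k ≤ X.card := by rw [hk]; exact Nat.mul_div_le _ _
  have hN : X.card ≤ 2 * (M * k) := by
    have h1 : X.card < M * (k + 1) := by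
      rw [hk]; exact Nat.lt_mul_div_succ _ (by omega)
    nlinarith
  obtain ⟨f⟩ : Nonempty (Fin M × Fin k ↪ X) :=
    Function.Embedding.nonempty_of_card_le (by simpa using hMk)
  have hkx : x / (2 * (w + 1)) ≤ (A.card : ℝ) * ((k : ℝ) / T.card) := by
    have h1 : (X.card : ℝ) ≤ 2 * (M * k) := by exact_mod_cast hN
    rw [hx, div_div, div_le_iff₀ (by positivity)]
    have h2 : (X.card : ℝ) * T.card ≤ 2 * (M * k) * (w + 1) := by gcongr
    have h3 : (A.card : ℝ) * ((k : ℝ) / T.card) * (M * (2 * (w + 1))) =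
        A.card * ((2 * (M * k) * (w + 1)) / T.card) := by ring
    rw [h3]
    refine mul_le_mul_of_nonneg_left ?_ (by positivity)
    rw [le_div_iff₀ hTpos]
    exact h2
  refine le_trans (general p ε hε1 n w C (fun S A hS hA h0 hC T hT => h p hp1 hpd S A hS hA h0 hC T hT) X T hT hTw
    M k hk1 f (fun _ => A) (fun _ _ _ => rfl) (fun _ => hAne) (fun _ => hA0) A.card
    (by positivity) (fun _ => le_rfl) ?_
    (fun e => ((A ×ˢ pert X T e).image fun s => s.1 * ((p.eval s.2 : ℤ) : ℂ)).card) ?_ Bad ?_) ?_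
  · refine le_trans ?_ hkx
    refine (le_max_left C 1).trans (hcC.trans ?_)
    exact div_le_div_of_nonneg_right hxc hw.le
  · intro e S hS
    exact card_le_card (image_subset_image (product_subset_product_right hS))
  · intro e he
    rw [hBad, mem_filter] at he
    refine he.2.trans_le ?_
    refine (rp_scale (by linarith) hK1 hcK hε.le hε1).trans ?_
    exact Real.rpow_le_rpow (by positivity) hkx (by linarith)
  · exact Nat.mul_le_mul_right _ (Nat.pow_le_pow_left (by omega) M)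

end Pool.Agent.h232_rp
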