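import Pool.Agent.h232_rp.Main

set_option autoImplicit false

namespace Pool.Agent.h232_rp

open Finset

/-- a polynomial of degree at most `d` takes a value at most `d` times -/
theorem fiber_le (p : Polynomial ℤ) (hp1 : 1 ≤ p.natDegree) (I : Finset ℤ) (b : ℤ) :
    (I.filter fun z => p.eval z = b).card ≤ p.natDegree := by
  classical
  have hne : p - Polynomial.C b ≠ 0 := by
    intro h
    have h1 : p = Polynomial.C b := sub_eq_zero.1 h
    rw [h1, Polynomial.natDegree_C] at hp1
    omega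
  calc (I.filter fun z => p.eval z = b).card ≤ (p - Polynomial.C b).roots.toFinset.card := by
        refine card_le_card ?_
        intro z hz
        rw [mem_filter] at hz
        rw [Multiset.mem_toFinset, Polynomial.mem_roots hne, Polynomial.IsRoot.def,
          Polynomial.eval_sub, Polynomial.eval_C, hz.2, sub_self]
    _ ≤ (p - Polynomial.C b).roots.card := Multiset.toFinset_card_le _
    _ ≤ (p - Polynomial.C b).natDegree := Polynomial.card_roots' _
    _ = p.natDegree := Polynomial.natDegree_sub_C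

theorem thmB (ε : ℝ) (hε : 0 < ε) (hε1 : ε ≤ 1) (d : ℕ) : ∃ n : ℕ, ∀ w : ℕ, ∃ c : ℝ, 0 < c ∧
    ∀ p : Polynomial ℤ, 1 ≤ p.natDegree → p.natDegree ≤ d → ∀ T : Finset ℤ, n ≤ T.card → (∀ x ∈ T, ∀ y ∈ T, |x - y| ≤ (w : ℤ)) →
    ∀ (X : Finset ℤ) (M : ℕ), 1 ≤ M → 2 * M ≤ X.card →
    (univ.filter fun e : X → T =>
      (((pert X T e ×ˢ pert X T e).image fun s => p.eval s.1 * p.eval s.2).card : ℝ) <
        c * ((X.card : ℝ) ^ 2 / M) ^ (1 - ε)).card * 2 ^ M ≤ T.card ^ X.card := by
  classical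
  obtain ⟨n, h⟩ := bs ε hε hε1 d
  refine ⟨2 * (n + 1), fun w => ?_⟩
  obtain ⟨C, h⟩ := h w
  obtain ⟨D, hD⟩ : ∃ D : ℝ, D = max (d : ℝ) 1 := ⟨_, rfl⟩
  have hD1 : (1 : ℝ) ≤ D := by rw [hD]; exact le_max_right _ _
  have hdD : (d : ℝ) ≤ D := by rw [hD]; exact le_max_left _ _
  have hD0 : (0 : ℝ) < D := by linarith
  obtain ⟨K, hK⟩ : ∃ K : ℝ, K = 16 * (w + 1) ^ 2 * D ^ 2 := ⟨_, rfl⟩
  have hw1 : (1 : ℝ) ≤ w + 1 := by
    have : (0 : ℝ) ≤ w := Nat.cast_nonneg w
    linarith
  have hK1 : (1 : ℝ) ≤ K := by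
    have h1 : (1 : ℝ) ≤ (w + 1) ^ 2 := one_le_pow₀ hw1
    have h2 : (1 : ℝ) ≤ D ^ 2 := one_le_pow₀ hD1
    rw [hK]
    nlinarith [mul_le_mul h1 h2 (by norm_num) (by positivity)]
  have hK0 : 0 < K := by linarith
  have hC1 : (1 : ℝ) ≤ max C 1 := le_max_right _ _
  refine ⟨1 / (K * max C 1), by positivity, ?_⟩
  intro p hp1 hpd T hTn hTw X M hM hMX
  obtain ⟨c, hc⟩ : ∃ c : ℝ, c = 1 / (K * max C 1) := ⟨_, rfl⟩
  rw [← hc]
  have hc0 : 0 < c := by rw [hc]; positivity
  have hcK : c ≤ 1 / K := by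
    rw [hc]
    refine one_div_le_one_div_of_le hK0 ?_
    nlinarith
  have hcC : max C 1 ≤ 1 / c / K := by
    rw [hc, one_div_one_div, mul_div_cancel_left₀ _ hK0.ne']
  have hT : T.Nonempty := card_pos.1 (by omega)
  have hTpos : (0 : ℝ) < T.card := by exact_mod_cast hT.card_pos
  have hTw1 : (T.card : ℝ) ≤ w + 1 := by exact_mod_cast card_le_of_diam T w hTw
  refine half _ _ (n + 1) _ _ (by omega) hTn ?_
  obtain ⟨Bad, hBad⟩ : ∃ Bad, Bad = univ.filter fun e : X → T =>
      (((pert X T e ×ˢ pert X T e).image fun s => p.eval s.1 * p.eval s.2).card : ℝ) <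
        c * ((X.card : ℝ) ^ 2 / M) ^ (1 - ε) := ⟨_, rfl⟩
  rw [← hBad]
  rcases Bad.eq_empty_or_nonempty with hE | ⟨e0, he0⟩
  · rw [hE]; simp
  obtain ⟨x, hx⟩ : ∃ x : ℝ, x = (X.card : ℝ) ^ 2 / M := ⟨_, rfl⟩
  rw [← hx] at hBad
  have hXne : X.Nonempty := card_pos.1 (by omega)
  have hMpos : (0 : ℝ) < M := by exact_mod_cast hM
  have hM1 : (1 : ℝ) ≤ M := by exact_mod_cast hM
  have hXM : 2 * (M : ℝ) ≤ X.card := by exact_mod_cast hMX
  have hx1 : 1 ≤ x := by
    rw [hx, le_div_iff₀ hMpos, one_mul]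
    nlinarith
  have hprod : ∀ e : X → T,
      (1 : ℝ) ≤ ((pert X T e ×ˢ pert X T e).image fun s => p.eval s.1 * p.eval s.2).card := by
    intro e
    have h1 : (pert X T e).Nonempty := by
      unfold pert
      obtain ⟨y, hy⟩ := hXne
      exact ⟨_, mem_image.2 ⟨⟨y, hy⟩, mem_univ _, rfl⟩⟩
    have : ((pert X T e ×ˢ pert X T e).image fun s => p.eval s.1 * p.eval s.2).Nonempty :=
      (h1.product h1).image _
    exact_mod_cast this.card_pos
  have hxc : 1 / c ≤ x := by
    rw [hBad, mem_filter] at he0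
    have h1 := (hprod e0).trans_lt he0.2
    have h2 : c * x ^ (1 - ε) ≤ c * x := mul_le_mul_of_nonneg_left (rp_le_self hx1 hε.le) hc0.le
    rw [div_le_iff₀ hc0]
    linarith
  -- the set is large
  have hN4 : 4 * ((w : ℝ) + 1) * D ≤ X.card := by
    have h1 : K ≤ x := by
      have : K ≤ 1 / c := by
        have := hcC
        rw [le_div_iff₀ hK0] at this
        nlinarith
      linarith
    have h2 : x ≤ (X.card : ℝ) ^ 2 := by
      rw [hx]
      exact div_le_self (by positivity) hM1
    have h3 : (4 * ((w : ℝ) + 1) * D) ^ 2 ≤ (X.card : ℝ) ^ 2 := by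
      calc (4 * ((w : ℝ) + 1) * D) ^ 2 = K := by rw [hK]; ring
        _ ≤ _ := h1.trans h2
    exact (pow_le_pow_iff_left₀ (by positivity) (by positivity) (by norm_num)).1 h3
  -- block length
  obtain ⟨k, hk⟩ : ∃ k, k = (X.card / 2) / M := ⟨_, rfl⟩
  have hk1 : 1 ≤ k := by rw [hk]; exact (Nat.one_le_div_iff (by omega)).2 (by omega)
  have hMk : M * k ≤ X.card / 2 := by rw [hk]; exact Nat.mul_div_le _ _
  have hN : X.card ≤ 4 * (M * k) := by
    have h1 : X.card / 2 < M * (k + 1) := by
      rw [hk]; exact Nat.lt_mul_div_succ _ (by omega)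
    have h2 : M ≤ M * k := by nlinarith
    have h3 : M * (k + 1) = M * k + M := by ring
    omega
  obtain ⟨f⟩ : Nonempty (Fin M × Fin k ↪ X) :=
    Function.Embedding.nonempty_of_card_le (by
      have : M * k ≤ X.card := by omega
      simpa using this)
  obtain ⟨R, hR⟩ : ∃ R : Finset X, R = univ \ univ.map f := ⟨_, rfl⟩
  have hRmem : ∀ x ∈ R, x ∉ Set.range f := by
    intro x hx hx2
    rw [hR, mem_sdiff] at hx
    obtain ⟨p, hp⟩ := hx2
    exact hx.2 (mem_map.2 ⟨p, mem_univ _, hp⟩)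
  have hRcard : X.card ≤ 2 * R.card := by
    have h1 : R.card = X.card - M * k := by
      rw [hR, card_sdiff_of_subset (subset_univ _), card_map, card_univ, card_univ,
        Fintype.card_coe, Fintype.card_prod, Fintype.card_fin, Fintype.card_fin]
    omega
  obtain ⟨I, hI⟩ : ∃ I : (X → T) → Finset ℤ,
      I = fun e => R.image fun x : X => (x : ℤ) + (e x : ℤ) := ⟨_, rfl⟩
  have hIc : ∀ e, R.card ≤ T.card * (I e).card := by
    intro e
    rw [hI]
    refine card_le_mul_card_image R T.card ?_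
    intro b _
    calc (R.filter fun x : X => (x : ℤ) + (e x : ℤ) = b).card
        ≤ (univ : Finset T).card := by
          refine Finset.card_le_card_of_injOn e (fun _ _ => mem_coe.2 (mem_univ _)) ?_
          intro y hy z hz hyz
          rw [mem_coe, mem_filter] at hy hz
          have h1 := hy.2
          have h2 := hz.2
          rw [hyz] at h1
          exact Subtype.ext (by linarith)
      _ = T.card := by rw [card_univ, Fintype.card_coe]
  have hIp : ∀ e, I e ⊆ pert X T e := by
    intro e z hz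
    rw [hI] at hz
    obtain ⟨y, _, rfl⟩ := mem_image.1 hz
    exact mem_image.2 ⟨y, mem_univ _, rfl⟩
  let A : (X → T) → Finset ℂ := fun e =>
    (((I e).image fun z => p.eval z).erase 0).image fun z : ℤ => (z : ℂ)
  have hAc : ∀ e, (A e).card = (((I e).image fun z => p.eval z).erase 0).card := fun e =>
    card_image_of_injective _ Int.cast_injective
  have ha : ∀ e, (X.card : ℝ) / (4 * T.card * D) ≤ (A e).card := by
    intro e
    have h1 : (((I e).image fun z => p.eval z).card : ℝ) ≤ (A e).card + 1 := by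
      have h1 := pred_card_le_card_erase (s := (I e).image fun z => p.eval z) (a := (0 : ℤ))
      rw [← hAc e] at h1
      have h2 : ((I e).image fun z => p.eval z).card ≤ (A e).card + 1 := by omega
      exact_mod_cast h2
    have h2 : (X.card : ℝ) ≤ 2 * (T.card * (I e).card) := by
      have : X.card ≤ 2 * (T.card * (I e).card) := by have := hIc e; omega
      exact_mod_cast this
    have h4 : ((I e).card : ℝ) ≤ D * ((I e).image fun z => p.eval z).card := by
      have h5 : (I e).card ≤ d * ((I e).image fun z => p.eval z).card :=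
        card_le_mul_card_image (I e) d fun b _ => (fiber_le p hp1 (I e) b).trans hpd
      calc ((I e).card : ℝ) ≤ d * ((I e).image fun z => p.eval z).card := by exact_mod_cast h5
        _ ≤ _ := by gcongr
    have h6 : ((I e).card : ℝ) ≤ D * ((A e).card + 1) :=
      h4.trans (mul_le_mul_of_nonneg_left h1 hD0.le)
    have h7 : (X.card : ℝ) ≤ 2 * (T.card * (D * ((A e).card + 1))) :=
      h2.trans (by gcongr)
    have h8 : 4 * (T.card : ℝ) * D ≤ X.card :=
      le_trans (by gcongr) hN4
    rw [div_le_iff₀ (by positivity)]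
    nlinarith
  have ha0 : (0 : ℝ) < (X.card : ℝ) / (4 * T.card * D) := by
    have : (0 : ℝ) < X.card := lt_of_lt_of_le (by positivity) hN4
    positivity
  have hAne : ∀ e, (A e).Nonempty := fun e =>
    card_pos.1 (by exact_mod_cast ha0.trans_le (ha e))
  have hA0 : ∀ e, (0 : ℂ) ∉ A e := by
    intro e h0
    obtain ⟨z, hz, hz2⟩ := mem_image.1 h0
    exact (mem_erase.1 hz).1 (by exact_mod_cast hz2)
  have hAout : ∀ e e' : X → T, (∀ x, x ∉ Set.range f → e' x = e x) → A e' = A e := by
    intro e e' hee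
    have : I e' = I e := by
      rw [hI]
      refine image_congr ?_
      intro x hx
      simp only
      rw [hee x (hRmem x hx)]
    show (((I e').image fun z => p.eval z).erase 0).image _ =
      (((I e).image fun z => p.eval z).erase 0).image _
    rw [this]
  have hkx : x / K ≤ (X.card : ℝ) / (4 * T.card * D) * ((k : ℝ) / T.card) := by
    have h1 : (X.card : ℝ) ≤ 4 * (M * k) := by exact_mod_cast hN
    have hX0 : (0 : ℝ) ≤ X.card := Nat.cast_nonneg _
    have hk0 : (0 : ℝ) ≤ k := Nat.cast_nonneg _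
    rw [hx, hK, div_div, div_mul_div_comm, div_le_div_iff₀ (by positivity) (by positivity)]
    have h2 : (X.card : ℝ) ^ 2 ≤ X.card * (4 * (M * k)) := by
      rw [sq]; exact mul_le_mul_of_nonneg_left h1 hX0
    have h3 : (T.card : ℝ) * T.card ≤ (w + 1) * (w + 1) := by gcongr
    have h4 : D ≤ D ^ 2 := by nlinarith
    calc (X.card : ℝ) ^ 2 * (4 * T.card * D * T.card)
        = (X.card : ℝ) ^ 2 * (4 * (T.card * T.card) * D) := by ring
      _ ≤ (X.card * (4 * (M * k))) * (4 * ((w + 1) * (w + 1)) * D ^ 2) := by gcongr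
      _ = _ := by ring
  refine le_trans (general p ε hε1 n w C
    (fun S A hS hA h0 hC T hT => h p hp1 hpd S A hS hA h0 hC T hT) X T hT
    hTw M k hk1 f A hAout hAne hA0 ((X.card : ℝ) / (4 * T.card * D)) ha0.le ha ?_
    (fun e => ((pert X T e ×ˢ pert X T e).image fun s => p.eval s.1 * p.eval s.2).card) ?_ Bad ?_) ?_
  · refine le_trans ?_ hkx
    refine (le_max_left C 1).trans (hcC.trans ?_)
    exact div_le_div_of_nonneg_right hxc hK0.le
  · intro e S hS
    refine le_trans (card_le_card ?_) (card_image_le (s := (pert X T e ×ˢ pert X T e).image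
      fun s => p.eval s.1 * p.eval s.2) (f := fun z : ℤ => (z : ℂ)))
    intro z hz
    obtain ⟨s, hs, rfl⟩ := mem_image.1 hz
    rw [mem_product] at hs
    obtain ⟨y, hy, hy2⟩ := mem_image.1 hs.1
    obtain ⟨u, hu, hu2⟩ := mem_image.1 (mem_of_mem_erase hy)
    refine mem_image.2 ⟨p.eval u * p.eval s.2, mem_image.2 ⟨(u, s.2), mem_product.2
      ⟨hIp e hu, hS hs.2⟩, rfl⟩, ?_⟩
    rw [← hy2, ← hu2]
    push_cast
    rfl
  · intro e he
    rw [hBad, mem_filter] at he
    refine he.2.trans_le ?_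
    refine (rp_scale (by linarith) hK1 hcK hε.le hε1).trans ?_
    exact Real.rpow_le_rpow (by positivity) hkx (by linarith)
  · exact Nat.mul_le_mul_right _ (Nat.pow_le_pow_left (by omega) M)

end Pool.Agent.h232_rp
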